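import Mathlib
import Pool.Agent.H85.FracLin

set_option autoImplicit false

/-!
A linear bound: an oriented graph whose fractional chromatic number is larger than `4 k`, or which
has more than `4 k α` vertices, contains every oriented tree with `k` arcs.
-/

namespace Pool.Agent.Results.MP_2821f8_co.FractionalLinear

open Pool.Agent.H85.OrTree Pool.Agent.H85.Absorb Pool.Agent.H85.FracDual Pool.Agent.H85.FracLin
  Finset

universe u v

/-- `I` is an independent set of the oriented graph `D`. -/
def IndependentSet {V : Type u} (D : V → V → Prop) (I : Finset V) : Prop :=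
  ∀ x ∈ I, ∀ y ∈ I, ¬ D x y

/-- `c` is a fractional colouring of the oriented graph `D`: nonnegative weights on the independent
sets of `D` such that every vertex lies in independent sets of total weight at least `1`. -/
def IsFracColouring {V : Type u} [Fintype V] [DecidableEq V] (D : V → V → Prop)
    (c : Finset V → ℝ) : Prop :=
  (∀ I, 0 ≤ c I) ∧ (∀ I, c I ≠ 0 → IndependentSet D I) ∧
    ∀ v : V, 1 ≤ ∑ I : Finset V, if v ∈ I then c I else 0

/-- The fractional chromatic number of `D` is larger than `x`: for some `r > x` every fractional
colouring of `D` has total weight at least `r`. -/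
def FracChromGt {V : Type u} [Fintype V] [DecidableEq V] (D : V → V → Prop) (x : ℝ) : Prop :=
  ∃ r : ℝ, x < r ∧ ∀ c : Finset V → ℝ, IsFracColouring D c → r ≤ ∑ I : Finset V, c I

/-- Weights on the vertices give every tree. -/
theorem of_weights {V : Type u} [Fintype V] [DecidableEq V] {W : Type v} [Fintype W]
    (D : V → V → Prop) (hD : Oriented D) (A : W → W → Prop) (hA : OrientedTree A) (k : ℕ)
    (hk : Fintype.card W = k + 1) (w : V → ℝ) (hw : ∀ v, 0 ≤ w v)
    (hI : ∀ I : Finset V, Indep D I → ∑ v ∈ I, w v ≤ 1) (htot : 4 * (k : ℝ) < ∑ v, w v) :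
    Contains D A := by
  obtain ⟨e, p, d, he, hp, hd, hAll⟩ := exists_code A hA k hk
  obtain ⟨f, hf1, hf2⟩ := embed_frac D hD w hw hI k htot (fun i => if i < k then p i else 0) d (by
    intro i
    show (if i < k then p i else 0) ≤ i
    split_ifs with h
    · exact hp i h
    · exact Nat.zero_le i)
  refine contains_of_code A k hk D e p d he hp hAll f hf1 ?_
  intro i hi
  have h := hf2 i hi
  simp only [if_pos hi] at h
  exact h

/-- Every finite oriented graph with fractional chromatic number larger than `4 k`, and every
finite oriented graph whose order is larger than `4 k` times its independence number, contains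
every oriented tree, in particular every oriented path, with `k` arcs. -/
theorem result {V : Type u} [Fintype V] [DecidableEq V] {W : Type v} [Fintype W]
    (D : V → V → Prop) (hD : Oriented D) (A : W → W → Prop) (hA : OrientedTree A) (k : ℕ)
    (hk : Fintype.card W = k + 1) :
    (FracChromGt D (4 * k) → Contains D A) ∧
    (∀ α : ℕ, (∀ I : Finset V, IndependentSet D I → I.card ≤ α) → 4 * k * α < Fintype.card V →
      Contains D A) := by
  constructor
  · rintro ⟨r, hr, hchi⟩
    obtain ⟨w, hw, hI, htot⟩ := exists_weights (fun I => ∀ x ∈ I, ∀ y ∈ I, ¬ D x y) (by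
      intro v x hx y hy
      rw [Finset.mem_singleton] at hx hy
      rw [hx, hy]
      exact hD.irrefl v) r (fun c h1 h2 h3 => hchi c ⟨h1, h2, h3⟩)
    exact of_weights D hD A hA k hk w hw (fun I hInd => hI I hInd) (lt_of_lt_of_le hr htot)
  · intro α hα hcard
    have hne : 0 < Fintype.card V := lt_of_le_of_lt (Nat.zero_le _) hcard
    obtain ⟨x⟩ := Fintype.card_pos_iff.1 hne
    have hα1 : 1 ≤ α := by
      have h1 := hα {x} (by
        intro a ha b hb
        rw [Finset.mem_singleton] at ha hb
        rw [ha, hb]
        exact hD.irrefl x)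
      simpa using h1
    have hα0 : (0 : ℝ) < α := by exact_mod_cast hα1
    refine of_weights D hD A hA k hk (fun _ => 1 / (α : ℝ)) (fun _ => by positivity) ?_ ?_
    · intro I hInd
      rw [Finset.sum_const, nsmul_eq_mul, mul_one_div, div_le_one hα0]
      exact_mod_cast hα I hInd
    · rw [Finset.sum_const, nsmul_eq_mul, mul_one_div, lt_div_iff₀ hα0]
      rw [Finset.card_univ]
      exact_mod_cast hcard

end Pool.Agent.Results.MP_2821f8_co.FractionalLinear
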