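import Mathlib
import Pool.Agent.H85.OrTree
import Pool.Agent.H85.Degen

set_option autoImplicit false

namespace Pool.Agent.Results.MP_2821f8_co.HeightBound

open Pool.Agent.H85.OrTree Pool.Agent.H85.Degen Finset

universe u v

/-- The oriented graph `A` has height at most `h`: its vertices can be labelled by integers from
`0` to `h` so that the label increases by exactly one along every arc. For an oriented path this
says that the number of forward arcs minus the number of backward arcs is at most `h` in absolute
value on every subpath. -/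
def HeightLe {W : Type v} (A : W → W → Prop) (h : ℕ) : Prop :=
  ∃ lam : W → ℕ, (∀ a b, A a b → lam b = lam a + 1) ∧ ∀ a, lam a ≤ h

section core

variable {V : Type u} [Fintype V]

/-- few out-neighbours one level up -/
def BadR (D : V → V → Prop) (k h : ℕ) (a : V × ℕ) (S : Finset (V × ℕ)) : Prop :=
  a.2 < h ∧ ∀ T : Finset (V × ℕ), T ⊆ S → (∀ b ∈ T, b.2 = a.2 + 1 ∧ D a.1 b.1) → T.card < k

/-- few in-neighbours one level down -/
def BadL (D : V → V → Prop) (k : ℕ) (a : V × ℕ) (S : Finset (V × ℕ)) : Prop :=
  0 < a.2 ∧ ∀ T : Finset (V × ℕ), T ⊆ S → (∀ b ∈ T, b.2 + 1 = a.2 ∧ D b.1 a.1) → T.card < k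

omit [Fintype V] in
theorem embed_of_core (D : V → V → Prop) (hD : Oriented D) (k h : ℕ) (S : Finset (V × ℕ))
    (hne : S.Nonempty) (hk : 0 < k)
    (hcore : ∀ a ∈ S, ¬ BadR D k h a S ∧ ¬ BadL D k a S)
    (p : ℕ → ℕ) (d : ℕ → Bool) (lam : ℕ → ℕ) (hp : ∀ i, i < k → p i ≤ i)
    (hlam : ∀ i, i ≤ k → lam i ≤ h)
    (hld : ∀ i, i < k → (d i = true → lam (i + 1) = lam (p i) + 1) ∧
      (d i = false → lam (p i) = lam (i + 1) + 1)) :
    ∃ f : ℕ → V, Set.InjOn f {i | i ≤ k} ∧
      (∀ i, i < k → (d i = true → D (f (p i)) (f (i + 1))) ∧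
        (d i = false → D (f (i + 1)) (f (p i)))) := by
  classical
  -- every element of the core has `k` neighbours up and down
  have hup : ∀ a ∈ S, a.2 < h → ∃ T : Finset (V × ℕ), T ⊆ S ∧
      (∀ b ∈ T, b.2 = a.2 + 1 ∧ D a.1 b.1) ∧ k ≤ T.card := by
    intro a ha hah
    have h1 := (hcore a ha).1
    unfold BadR at h1
    push Not at h1
    exact h1 hah
  have hdown : ∀ a ∈ S, 0 < a.2 → ∃ T : Finset (V × ℕ), T ⊆ S ∧
      (∀ b ∈ T, b.2 + 1 = a.2 ∧ D b.1 a.1) ∧ k ≤ T.card := by
    intro a ha hah
    have h1 := (hcore a ha).2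
    unfold BadL at h1
    push Not at h1
    exact h1 hah
  -- all levels occur
  have hlev : ∀ j, j ≤ h → ∃ v : V, (v, j) ∈ S := by
    obtain ⟨a, ha⟩ := hne
    have hU : ∀ n, a.2 + n ≤ h → ∃ v : V, (v, a.2 + n) ∈ S := by
      intro n
      induction n with
      | zero =>
        intro _
        exact ⟨a.1, ha⟩
      | succ n ih =>
        intro hn
        obtain ⟨v, hv⟩ := ih (by omega)
        obtain ⟨T, hT1, hT2, hT3⟩ := hup (v, a.2 + n) hv (by simp only; omega)
        have hTne : T.Nonempty := by
          rw [← Finset.card_pos]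
          omega
        obtain ⟨b, hb⟩ := hTne
        refine ⟨b.1, ?_⟩
        have h1 := (hT2 b hb).1
        simp only at h1
        have h2 : (b.1, a.2 + (n + 1)) = b := by
          rw [← add_assoc, ← h1]
        rw [h2]
        exact hT1 hb
    have hL : ∀ n, n ≤ a.2 → ∃ v : V, (v, a.2 - n) ∈ S := by
      intro n
      induction n with
      | zero =>
        intro _
        exact ⟨a.1, ha⟩
      | succ n ih =>
        intro hn
        obtain ⟨v, hv⟩ := ih (by omega)
        obtain ⟨T, hT1, hT2, hT3⟩ := hdown (v, a.2 - n) hv (by simp only; omega)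
        have hTne : T.Nonempty := by
          rw [← Finset.card_pos]
          omega
        obtain ⟨b, hb⟩ := hTne
        refine ⟨b.1, ?_⟩
        have h1 := (hT2 b hb).1
        simp only at h1
        have h2 : (b.1, a.2 - (n + 1)) = b := by
          have h3 : a.2 - (n + 1) = b.2 := by omega
          rw [h3]
        rw [h2]
        exact hT1 hb
    intro j hj
    rcases le_total a.2 j with h1 | h1
    · obtain ⟨v, hv⟩ := hU (j - a.2) (by omega)
      have h2 : a.2 + (j - a.2) = j := by omega
      rw [h2] at hv
      exact ⟨v, hv⟩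
    · obtain ⟨v, hv⟩ := hL (a.2 - j) (by omega)
      have h2 : a.2 - (a.2 - j) = j := by omega
      rw [h2] at hv
      exact ⟨v, hv⟩
  -- the greedy embedding
  have key : ∀ m, m ≤ k → ∃ f : ℕ → V, Set.InjOn f {i | i ≤ m} ∧
      (∀ i, i ≤ m → (f i, lam i) ∈ S) ∧
      (∀ i, i < m → (d i = true → D (f (p i)) (f (i + 1))) ∧
        (d i = false → D (f (i + 1)) (f (p i)))) := by
    intro m
    induction m with
    | zero =>
      intro _
      obtain ⟨v, hv⟩ := hlev (lam 0) (hlam 0 (Nat.zero_le k))
      refine ⟨fun _ => v, ?_, ?_, ?_⟩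
      · intro a ha b hb _
        simp only [Set.mem_ofPred_eq, Nat.le_zero] at ha hb
        rw [ha, hb]
      · intro i hi
        rw [Nat.le_zero] at hi
        subst hi
        exact hv
      · intro i hi
        exact absurd hi (Nat.not_lt_zero i)
    | succ m ih =>
      intro hm
      obtain ⟨f, hf1, hf2, hf3⟩ := ih (by omega)
      have hpm : p m ≤ m := hp m (by omega)
      have hmem := hf2 (p m) hpm
      -- find the new vertex
      have hnew : ∃ y : V, (y, lam (m + 1)) ∈ S ∧ (∀ i, i ≤ m → f i ≠ y) ∧
          (d m = true → D (f (p m)) y) ∧ (d m = false → D y (f (p m))) := by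
        have hlm := hlam (m + 1) hm
        have hfin : ∀ T : Finset (V × ℕ), T ⊆ S → (∀ b ∈ T, b.2 = lam (m + 1) ∧ b.1 ≠ f (p m)) →
            k ≤ T.card → ∃ y : V, (y, lam (m + 1)) ∈ T ∧ (∀ i, i ≤ m → f i ≠ y) := by
          intro T hT1 hT2 hT3
          let U : Finset (V × ℕ) :=
            ((Finset.range (m + 1)).erase (p m)).image (fun i => (f i, lam (m + 1)))
          have hU : U.card ≤ m := by
            refine Finset.card_image_le.trans ?_
            rw [Finset.card_erase_of_mem (by rw [Finset.mem_range]; omega), Finset.card_range]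
            rfl
          have hex : ∃ b ∈ T, b ∉ U := by
            by_contra hcon
            push Not at hcon
            have h1 : T.card ≤ U.card := Finset.card_le_card hcon
            omega
          obtain ⟨b, hb, hbU⟩ := hex
          have hb2 := (hT2 b hb).1
          have hbe : b = (b.1, lam (m + 1)) := by rw [← hb2]
          refine ⟨b.1, by rw [← hbe]; exact hb, ?_⟩
          intro i hi hfi
          by_cases h1 : i = p m
          · apply (hT2 b hb).2
            rw [← hfi, h1]
          · apply hbU
            rw [hbe]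
            apply Finset.mem_image.2
            refine ⟨i, ?_, by rw [hfi]⟩
            rw [Finset.mem_erase, Finset.mem_range]
            exact ⟨h1, by omega⟩
        cases hdm : d m with
        | true =>
          have hl := (hld m (by omega)).1 hdm
          obtain ⟨T, hT1, hT2, hT3⟩ := hup (f (p m), lam (p m)) hmem (by simp only; omega)
          simp only at hT2
          obtain ⟨y, hy1, hy2⟩ := hfin T hT1 (by
            intro b hb
            refine ⟨by rw [(hT2 b hb).1, hl], ?_⟩
            intro h1
            have h2 := (hT2 b hb).2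
            rw [h1] at h2
            exact hD.irrefl _ h2) hT3
          refine ⟨y, hT1 hy1, hy2, fun _ => (hT2 _ hy1).2, fun h1 => by simp at h1⟩
        | false =>
          have hl := (hld m (by omega)).2 hdm
          obtain ⟨T, hT1, hT2, hT3⟩ := hdown (f (p m), lam (p m)) hmem (by simp only; omega)
          simp only at hT2
          obtain ⟨y, hy1, hy2⟩ := hfin T hT1 (by
            intro b hb
            have h3 := (hT2 b hb).1
            refine ⟨by omega, ?_⟩
            intro h1
            have h2 := (hT2 b hb).2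
            rw [h1] at h2
            exact hD.irrefl _ h2) hT3
          refine ⟨y, hT1 hy1, hy2, fun h1 => by simp at h1, fun _ => (hT2 _ hy1).2⟩
      obtain ⟨y, hy1, hy2, hy3, hy4⟩ := hnew
      refine ⟨fun i => if i = m + 1 then y else f i, ?_, ?_, ?_⟩
      · intro a ha b hb hab
        simp only [Set.mem_ofPred_eq] at ha hb
        simp only at hab
        by_cases h1 : a = m + 1
        · by_cases h2 : b = m + 1
          · rw [h1, h2]
          · rw [if_pos h1, if_neg h2] at hab
            exact absurd hab.symm (hy2 b (by omega))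
        · by_cases h2 : b = m + 1
          · rw [if_neg h1, if_pos h2] at hab
            exact absurd hab (hy2 a (by omega))
          · rw [if_neg h1, if_neg h2] at hab
            exact hf1 (by simp only [Set.mem_ofPred_eq]; omega)
              (by simp only [Set.mem_ofPred_eq]; omega) hab
      · intro i hi
        show ((if i = m + 1 then y else f i), lam i) ∈ S
        by_cases h1 : i = m + 1
        · rw [if_pos h1, h1]
          exact hy1
        · rw [if_neg h1]
          exact hf2 i (by omega)
      · intro i hi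
        by_cases h1 : i = m
        · subst h1
          have h2 : p i ≠ i + 1 := by omega
          simp only [if_neg h2, if_true]
          exact ⟨hy3, hy4⟩
        · have h3 : p i ≠ m + 1 := by
            have := hp i (by omega)
            omega
          have h4 : i + 1 ≠ m + 1 := by omega
          simp only [if_neg h3, if_neg h4]
          exact hf3 i (by omega)
  obtain ⟨f, hf1, _, hf3⟩ := key k le_rfl
  exact ⟨f, hf1, hf3⟩

theorem colour_of_no_core (D : V → V → Prop) (hD : Oriented D) (k h : ℕ) (hk : 0 < k)
    (hno : ∀ S : Finset (V × ℕ), (∀ a ∈ S, a.2 ≤ h) → S.Nonempty →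
      ∃ a ∈ S, BadR D k h a S ∨ BadL D k a S) :
    (und D).Colorable (h * (4 * k - 3)) := by
  classical
  let A0 : Finset (V × ℕ) := (Finset.univ : Finset V) ×ˢ Finset.range (h + 1)
  have hA0 : ∀ v : V, ∀ i, (v, i) ∈ A0 ↔ i ≤ h := by
    intro v i
    simp only [A0, Finset.mem_product, Finset.mem_univ, true_and, Finset.mem_range]
    omega
  obtain ⟨t, ht1, ht2⟩ := exists_time (fun a S => BadR D k h a S ∨ BadL D k a S) _ A0 rfl (by
    intro S hS hSne
    apply hno S _ hSne
    intro a ha
    exact (hA0 a.1 a.2).1 (hS ha))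
  let S : V × ℕ → Finset (V × ℕ) := fun a => A0.filter (fun b => t a ≤ t b)
  let r : V → ℕ → Prop := fun v i => BadR D k h (v, i) (S (v, i))
  have hr0 : ∀ v, r v 0 := by
    intro v
    rcases ht2 (v, 0) ((hA0 v 0).2 (Nat.zero_le h)) with h1 | h1
    · exact h1
    · exact absurd h1.1 (lt_irrefl 0)
  have hrh : ∀ v, ¬ r v h := fun v h1 => absurd h1.1 (lt_irrefl h)
  have hi : ∀ v, ∃ i, i < h ∧ r v i ∧ ¬ r v (i + 1) := by
    intro v
    have hex : ∃ i, ¬ r v i := ⟨h, hrh v⟩
    have hs := Nat.find_spec hex
    have hle : Nat.find hex ≤ h := Nat.find_min' hex (hrh v)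
    have hpos : 0 < Nat.find hex := by
      rcases Nat.eq_zero_or_pos (Nat.find hex) with h1 | h1
      · rw [h1] at hs
        exact absurd (hr0 v) hs
      · exact h1
    refine ⟨Nat.find hex - 1, by omega, ?_, ?_⟩
    · have h1 := Nat.find_min hex (m := Nat.find hex - 1) (by omega)
      exact not_not.1 h1
    · have h1 : Nat.find hex - 1 + 1 = Nat.find hex := by omega
      rw [h1]
      exact hs
  choose c hc1 hc2 hc3 using hi
  have hL : ∀ v, BadL D k (v, c v + 1) (S (v, c v + 1)) := by
    intro v
    rcases ht2 (v, c v + 1) ((hA0 v _).2 (hc1 v)) with h1 | h1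
    · exact absurd h1 (hc3 v)
    · exact h1
  let N1 : V → Finset V := fun v =>
    Finset.univ.filter (fun u => D v u ∧ t (v, c v) ≤ t (u, c v + 1))
  let N2 : V → Finset V := fun v =>
    Finset.univ.filter (fun u => D u v ∧ t (v, c v + 1) ≤ t (u, c v))
  have hN1 : ∀ v, (N1 v).card < k := by
    intro v
    have h1 := (hc2 v).2 ((N1 v).image (fun u => (u, c v + 1))) (by
      intro b hb
      obtain ⟨u, hu, rfl⟩ := Finset.mem_image.1 hb
      have hu2 := (Finset.mem_filter.1 hu).2
      apply Finset.mem_filter.2
      exact ⟨(hA0 u _).2 (hc1 v), hu2.2⟩) (by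
      intro b hb
      obtain ⟨u, hu, rfl⟩ := Finset.mem_image.1 hb
      have hu2 := (Finset.mem_filter.1 hu).2
      exact ⟨rfl, hu2.1⟩)
    rw [Finset.card_image_of_injective _ (fun x y hxy => (Prod.mk.inj hxy).1)] at h1
    exact h1
  have hN2 : ∀ v, (N2 v).card < k := by
    intro v
    have h1 := (hL v).2 ((N2 v).image (fun u => (u, c v))) (by
      intro b hb
      obtain ⟨u, hu, rfl⟩ := Finset.mem_image.1 hb
      have hu2 := (Finset.mem_filter.1 hu).2
      apply Finset.mem_filter.2
      exact ⟨(hA0 u _).2 (le_of_lt (hc1 v)), hu2.2⟩) (by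
      intro b hb
      obtain ⟨u, hu, rfl⟩ := Finset.mem_image.1 hb
      have hu2 := (Finset.mem_filter.1 hu).2
      exact ⟨rfl, hu2.1⟩)
    rw [Finset.card_image_of_injective _ (fun x y hxy => (Prod.mk.inj hxy).1)] at h1
    exact h1
  obtain ⟨f, hf⟩ := exists_colouring (fun v => N1 v ∪ N2 v) (2 * (k - 1)) (by
    intro v
    have h1 := hN1 v
    have h2 := hN2 v
    have h3 := Finset.card_union_le (N1 v) (N2 v)
    omega)
  -- adjacent vertices of the same class have different second colours
  have harc : ∀ u v, D u v → c u = c v → f u ≠ f v := by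
    intro u v huv hcuv
    have hne : u ≠ v := by
      rintro rfl
      exact hD.irrefl _ huv
    rcases le_total (t (u, c u)) (t (v, c u + 1)) with h1 | h1
    · apply hf u v hne
      apply Finset.mem_union_left
      exact Finset.mem_filter.2 ⟨Finset.mem_univ v, huv, h1⟩
    · apply Ne.symm
      apply hf v u hne.symm
      apply Finset.mem_union_right
      apply Finset.mem_filter.2
      refine ⟨Finset.mem_univ u, huv, ?_⟩
      rw [← hcuv]
      exact h1
  have hcol : (und D).Coloring (Fin h × Fin (2 * (2 * (k - 1)) + 1)) := by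
    refine SimpleGraph.Coloring.mk (fun v => (⟨c v, hc1 v⟩, f v)) ?_
    intro a b hab heq
    rw [und_adj hD] at hab
    have h1 : c a = c b := by
      have := (Prod.mk.inj heq).1
      simpa using this
    have h2 : f a = f b := (Prod.mk.inj heq).2
    rcases hab with h3 | h3
    · exact harc a b h3 h1 h2
    · exact harc b a h3 h1.symm h2.symm
  have h1 := hcol.colorable
  rw [Fintype.card_prod, Fintype.card_fin, Fintype.card_fin] at h1
  have h2 : 2 * (2 * (k - 1)) + 1 = 4 * k - 3 := by omega
  rw [h2] at h1
  exact h1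

end core

/-- Every oriented graph whose chromatic number exceeds `h (4 k - 3)` contains every oriented
tree, in particular every oriented path, with `k` arcs and height at most `h`. -/
theorem result {V : Type u} [Fintype V] {W : Type v} [Fintype W] (D : V → V → Prop)
    (hD : Oriented D) (A : W → W → Prop) (hA : OrientedTree A) (k h : ℕ)
    (hk : Fintype.card W = k + 1) (hh : HeightLe A h)
    (hchi : ((h * (4 * k - 3) : ℕ) : ℕ∞) < (und D).chromaticNumber) :
    Contains D A := by
  classical
  obtain ⟨lam, hlam1, hlam2⟩ := hh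
  obtain ⟨e, p, d, he, hp, hd, hAll⟩ := exists_code A hA k hk
  have hncol : ¬ (und D).Colorable (h * (4 * k - 3)) := by
    intro hcol
    exact absurd hcol.chromaticNumber_le (not_le.2 hchi)
  rcases Nat.eq_zero_or_pos k with hk0 | hk0
  · subst hk0
    have hV : Nonempty V := by
      by_contra hcon
      rw [not_nonempty_iff] at hcon
      exact hncol (SimpleGraph.Colorable.of_isEmpty _)
    obtain ⟨v⟩ := hV
    refine contains_of_code A 0 hk D e p d he hp hAll (fun _ => v) ?_ ?_
    · intro a ha b hb _
      simp only [Set.mem_ofPred_eq, Nat.le_zero] at ha hb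
      rw [ha, hb]
    · intro i hi
      exact absurd hi (Nat.not_lt_zero i)
  · have hcore : ∃ S : Finset (V × ℕ), (∀ a ∈ S, a.2 ≤ h) ∧ S.Nonempty ∧
        ∀ a ∈ S, ¬ BadR D k h a S ∧ ¬ BadL D k a S := by
      by_contra hcon
      push Not at hcon
      apply hncol
      apply colour_of_no_core D hD k h hk0
      intro S hS hSne
      obtain ⟨a, ha, hab⟩ := hcon S hS hSne
      refine ⟨a, ha, ?_⟩
      by_cases h1 : BadR D k h a S
      · exact Or.inl h1
      · exact Or.inr (hab h1)
    obtain ⟨S, _, hS2, hS3⟩ := hcore
    obtain ⟨f, hf1, hf2⟩ := embed_of_core D hD k h S hS2 hk0 hS3 p d (fun i => lam (e i)) hp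
      (fun i _ => hlam2 (e i)) (by
        intro i hi
        constructor
        · intro h1
          exact hlam1 _ _ ((hd i hi).1 h1)
        · intro h1
          exact hlam1 _ _ ((hd i hi).2 h1))
    exact contains_of_code A k hk D e p d he hp hAll f hf1 hf2

end Pool.Agent.Results.MP_2821f8_co.HeightBound
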