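import Mathlib
import Pool.Agent.H85.OrTree
import Pool.Agent.helper34.BTAbsorb

set_option autoImplicit false

namespace Pool.Agent.Results.MP_2821f8_co.NearlyLinear

open Pool.Agent.H85.OrTree Pool.Agent.helper34.BT Finset

universe u v

section

variable {V : Type u}

theorem cov_sdiff_union [DecidableEq V] {D : V → V → Prop} {s t : ℕ} {X S : Finset V}
    (h1 : Cov D s (X \ S)) (h2 : Cov D t S) : Cov D (s + t) X := by
  obtain ⟨c, hc1, hc2⟩ := cov_union h1 h2
  refine ⟨c, fun v hv => hc1 v ?_, fun a ha b hb => hc2 a ?_ b ?_⟩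
  all_goals
    rw [sdiff_union_self_eq_union]
    exact mem_union_left _ (by assumption)

/-- absorption in a prescribed direction, for the vertices with few neighbours in that
direction -/
theorem absorb_dir (D : V → V → Prop) (hD : Oriented D) (b : Bool) (l m : ℕ) (hm : m ≤ 2 ^ l)
    (X : Finset V) :
    ∃ L ⊆ X, Cov D (6 * l ^ 2 + 2) L ∧ ∀ x ∈ X, x ∉ L →
      (∃ y ∈ L, (b = true → D x y) ∧ (b = false → D y x)) ∨
      ∃ S : Finset V, S ⊆ X ∧ m < S.card ∧
        ∀ y ∈ S, (b = true → D x y) ∧ (b = false → D y x) := by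
  classical
  set E : V → V → Prop := fun x y => (b = true → D x y) ∧ (b = false → D y x) with hE
  have hEt : ∀ x y, E x y → (D x y ∨ D y x) := by
    intro x y h
    cases b with
    | true => exact Or.inl (h.1 rfl)
    | false => exact Or.inr (h.2 rfl)
  have hirr : ∀ x, ¬ E x x := by
    intro x h
    rcases hEt x x h with h1 | h1 <;> exact hD.irrefl x h1
  set Z : Finset V := X.filter fun x => ∀ S : Finset V, S ⊆ X → (∀ y ∈ S, E x y) → S.card ≤ m
    with hZ
  have hZX : Z ⊆ X := filter_subset _ _
  obtain ⟨L, hL1, hL2, c, hc1, hc2⟩ := absorb E hirr l Z (fun x hx S hS hSE =>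
    ((mem_filter.1 hx).2 S (hS.trans hZX) hSE).trans hm)
  refine ⟨L, hL1.trans hZX, ⟨c, hc1, ?_⟩, ?_⟩
  · intro x hx y hy hxy
    cases b with
    | true => exact hc2 x hx y hy ⟨fun _ => hxy, fun h => Bool.noConfusion h⟩
    | false => exact (hc2 y hy x hx ⟨fun h => Bool.noConfusion h, fun _ => hxy⟩).symm
  · intro x hx hxL
    by_cases h : x ∈ Z
    · left
      exact hL2 x h hxL
    · right
      have h1 : ¬ ∀ S : Finset V, S ⊆ X → (∀ y ∈ S, E x y) → S.card ≤ m := fun h2 =>
        h (mem_filter.2 ⟨hx, h2⟩)
      push Not at h1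
      obtain ⟨S, hS1, hS2, hS3⟩ := h1
      exact ⟨S, hS1, hS3, hS2⟩

theorem embed (D : V → V → Prop) (hD : Oriented D) (l k : ℕ) (hk : k ≤ 2 ^ l + 1) (p : ℕ → ℕ)
    (d : ℕ → Bool) (hp : ∀ i, i < k → p i ≤ i) :
    ∀ m, m ≤ k → ∀ X : Finset V, ¬ Cov D (m * (6 * l ^ 2 + 2)) X →
    ∃ f : ℕ → V, (∀ i, i ≤ m → f i ∈ X) ∧ Set.InjOn f {i | i ≤ m} ∧
      (∀ i, i < m → (d i = true → D (f (p i)) (f (i + 1))) ∧
        (d i = false → D (f (i + 1)) (f (p i)))) := by
  classical
  intro m
  induction m with
  | zero =>
    intro _ X hX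
    have hne : X.Nonempty := by
      rw [Finset.nonempty_iff_ne_empty]
      rintro rfl
      exact hX (cov_empty _ _)
    obtain ⟨x, hx⟩ := hne
    refine ⟨fun _ => x, fun _ _ => hx, ?_, ?_⟩
    · intro a ha b hb _
      simp only [Set.mem_ofPred_eq, Nat.le_zero] at ha hb
      rw [ha, hb]
    · intro i hi
      exact absurd hi (Nat.not_lt_zero i)
  | succ m ih =>
    intro hm X hX
    obtain ⟨L, hLX, hL, habs⟩ := absorb_dir D hD (d m) l m (by omega) X
    have hnc : ¬ Cov D (m * (6 * l ^ 2 + 2)) (X \ L) := by
      intro h1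
      apply hX
      have h2 := cov_sdiff_union h1 hL
      rw [Nat.succ_mul]
      exact h2
    obtain ⟨f, hf0, hf1, hf2⟩ := ih (by omega) (X \ L) hnc
    have hpm := hp m (by omega)
    have hfm := Finset.mem_sdiff.1 (hf0 (p m) hpm)
    -- an unused neighbour of `f (p m)`
    have hex : ∃ y ∈ X, ((d m = true → D (f (p m)) y) ∧ (d m = false → D y (f (p m)))) ∧
        ∀ i, i ≤ m → f i ≠ y := by
      rcases habs (f (p m)) hfm.1 hfm.2 with ⟨y, hy1, hy2⟩ | ⟨S, hS1, hS2, hS3⟩
      · refine ⟨y, hLX hy1, hy2, ?_⟩
        intro i hi h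
        apply (Finset.mem_sdiff.1 (hf0 i hi)).2
        rw [h]
        exact hy1
      · set U : Finset V := ((range (m + 1)).erase (p m)).image f with hU
        have hUc : U.card ≤ m := by
          refine card_image_le.trans ?_
          rw [card_erase_of_mem (mem_range.2 (by omega)), card_range]
          omega
        obtain ⟨y, hy1, hy2⟩ : ∃ y ∈ S, y ∉ U := by
          by_contra hcon
          push Not at hcon
          have := card_le_card (fun y hy => hcon y hy : S ⊆ U)
          omega
        refine ⟨y, hS1 hy1, hS3 y hy1, ?_⟩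
        intro i hi h
        by_cases h1 : i = p m
        · have h2 := hS3 y hy1
          rw [← h, h1] at h2
          cases hdm : d m with
          | true => exact hD.irrefl _ (h2.1 hdm)
          | false => exact hD.irrefl _ (h2.2 hdm)
        · apply hy2
          rw [← h]
          exact mem_image_of_mem f (mem_erase.2 ⟨h1, mem_range.2 (by omega)⟩)
    obtain ⟨y, hy1, hy2, hyf⟩ := hex
    refine ⟨fun i => if i = m + 1 then y else f i, ?_, ?_, ?_⟩
    · intro i hi
      show (if i = m + 1 then y else f i) ∈ X
      by_cases h1 : i = m + 1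
      · rw [if_pos h1]
        exact hy1
      · rw [if_neg h1]
        exact (Finset.mem_sdiff.1 (hf0 i (by omega))).1
    · intro a ha b hb hab
      simp only [Set.mem_ofPred_eq] at ha hb
      simp only at hab
      by_cases h1 : a = m + 1
      · by_cases h2 : b = m + 1
        · rw [h1, h2]
        · rw [if_pos h1, if_neg h2] at hab
          exact absurd hab.symm (hyf b (by omega))
      · by_cases h2 : b = m + 1
        · rw [if_neg h1, if_pos h2] at hab
          exact absurd hab (hyf a (by omega))
        · rw [if_neg h1, if_neg h2] at hab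
          exact hf1 (by simp only [Set.mem_ofPred_eq]; omega)
            (by simp only [Set.mem_ofPred_eq]; omega) hab
    · intro i hi
      by_cases h1 : i = m
      · subst h1
        have h2 : p i ≠ i + 1 := by omega
        simp only [if_neg h2, if_true]
        exact hy2
      · have h3 : p i ≠ m + 1 := by
          have := hp i (by omega)
          omega
        have h4 : i + 1 ≠ m + 1 := by omega
        simp only [if_neg h3, if_neg h4]
        exact hf2 i (by omega)

end

/-- Every finite oriented graph with chromatic number larger than `k (6 ⌈log₂ k⌉² + 2)` contains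
every oriented tree, in particular every oriented path, with `k` arcs. -/
theorem result {V : Type u} [Fintype V] {W : Type v} [Fintype W] (D : V → V → Prop)
    (hD : Oriented D) (A : W → W → Prop) (hA : OrientedTree A) (k : ℕ)
    (hk : Fintype.card W = k + 1)
    (hchi : ((k * (6 * Nat.clog 2 k ^ 2 + 2) : ℕ) : ℕ∞) < (und D).chromaticNumber) :
    Contains D A := by
  classical
  obtain ⟨e, p, d, he, hp, hd, hAll⟩ := exists_code A hA k hk
  have hkl : k ≤ 2 ^ Nat.clog 2 k := Nat.le_pow_clog (by norm_num) k
  obtain ⟨f, _, hf1, hf2⟩ := embed D hD (Nat.clog 2 k) k (by omega) p d hp k le_rfl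
    (Finset.univ : Finset V) (by
      rintro ⟨c, hc1, hc2⟩
      have hcol : (und D).Coloring (Fin (k * (6 * Nat.clog 2 k ^ 2 + 2))) := by
        refine SimpleGraph.Coloring.mk (fun v => ⟨c v, hc1 v (Finset.mem_univ v)⟩) ?_
        intro a b hab heq
        have h1 : c a = c b := by simpa using heq
        rw [und_adj hD] at hab
        rcases hab with h2 | h2
        · exact hc2 a (Finset.mem_univ a) b (Finset.mem_univ b) h2 h1
        · exact hc2 b (Finset.mem_univ b) a (Finset.mem_univ a) h2 h1.symm
      have h1 := hcol.colorable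
      rw [Fintype.card_fin] at h1
      exact absurd h1.chromaticNumber_le (not_le.2 hchi))
  exact contains_of_code A k hk D e p d he hp hAll f hf1 hf2

end Pool.Agent.Results.MP_2821f8_co.NearlyLinear
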