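import Mathlib
import Pool.Agent.H85.Absorb

set_option autoImplicit false

namespace Pool.Agent.Results.MP_2821f8_co.OrderBound

open Pool.Agent.H85.OrTree Pool.Agent.H85.Absorb Finset

universe u v

section

variable {V : Type u}

theorem cov_union [DecidableEq V] {D : V → V → Prop} {s t : ℕ} {X S : Finset V}
    (h1 : Cov D s (X \ S)) (h2 : Cov D t S) : Cov D (s + t) X := by
  obtain ⟨c1, hc1, hc1'⟩ := h1
  obtain ⟨c2, hc2, hc2'⟩ := h2
  refine ⟨fun v => if v ∈ S then s + c2 v else c1 v, ?_, ?_⟩
  · intro v hv
    by_cases h : v ∈ S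
    · simp only [if_pos h]
      have := hc2 v h
      omega
    · simp only [if_neg h]
      have := hc1 v (Finset.mem_sdiff.2 ⟨hv, h⟩)
      omega
  · intro a ha b hb hab
    by_cases h : a ∈ S
    · by_cases h' : b ∈ S
      · simp only [if_pos h, if_pos h']
        have := hc2' a h b h' hab
        omega
      · simp only [if_pos h, if_neg h']
        have := hc1 b (Finset.mem_sdiff.2 ⟨hb, h'⟩)
        omega
    · by_cases h' : b ∈ S
      · simp only [if_neg h, if_pos h']
        have := hc1 a (Finset.mem_sdiff.2 ⟨ha, h⟩)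
        omega
      · simp only [if_neg h, if_neg h']
        exact hc1' a (Finset.mem_sdiff.2 ⟨ha, h⟩) b (Finset.mem_sdiff.2 ⟨hb, h'⟩) hab

theorem embed (D : V → V → Prop) (hD : Oriented D) (t : ℕ) (k : ℕ) (p : ℕ → ℕ) (d : ℕ → Bool)
    (hp : ∀ i, i < k → p i ≤ i) :
    ∀ m, m ≤ k → ∀ X : Finset V, X.card < 2 ^ t → ¬ Cov D (m * t) X →
    ∃ f : ℕ → V, (∀ i, i ≤ m → f i ∈ X) ∧ Set.InjOn f {i | i ≤ m} ∧
      (∀ i, i < m → (d i = true → D (f (p i)) (f (i + 1))) ∧
        (d i = false → D (f (i + 1)) (f (p i)))) := by
  classical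
  intro m
  induction m with
  | zero =>
    intro _ X _ hX
    have hne : X.Nonempty := by
      rw [Finset.nonempty_iff_ne_empty]
      rintro rfl
      apply hX
      refine ⟨fun _ => 0, ?_, ?_⟩
      · intro v hv
        exact absurd hv (Finset.notMem_empty v)
      · intro v hv
        exact absurd hv (Finset.notMem_empty v)
    obtain ⟨x, hx⟩ := hne
    refine ⟨fun _ => x, fun _ _ => hx, ?_, ?_⟩
    · intro a ha b hb _
      simp only [Set.mem_ofPred_eq, Nat.le_zero] at ha hb
      rw [ha, hb]
    · intro i hi
      exact absurd hi (Nat.not_lt_zero i)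
  | succ m ih =>
    intro hm X hXc hX
    obtain ⟨S, hSX, hS2, U, hUX, hU, hUw⟩ := exists_absorb_dir D hD (d m) (fun _ => (1 : ℝ))
      (fun _ => zero_le_one) X t
    -- nothing is left over
    have hU0 : U = ∅ := by
      by_contra hne
      have h1 : 0 < U.card := Finset.card_pos.2 (Finset.nonempty_iff_ne_empty.2 hne)
      simp only [Finset.sum_const, nsmul_eq_mul, mul_one] at hUw
      have h2 : ((2 ^ t * U.card : ℕ) : ℝ) ≤ (X.card : ℝ) := by
        push_cast
        exact hUw
      have h3 : 2 ^ t * U.card ≤ X.card := by exact_mod_cast h2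
      have h4 : 2 ^ t * 1 ≤ 2 ^ t * U.card := Nat.mul_le_mul_left _ h1
      omega
    have hnc : ¬ Cov D (m * t) (X \ S) := by
      intro h1
      apply hX
      have h2 := cov_union h1 hS2
      rw [Nat.succ_mul]
      exact h2
    obtain ⟨f, hf0, hf1, hf2⟩ := ih (by omega) (X \ S)
      (lt_of_le_of_lt (Finset.card_le_card Finset.sdiff_subset) hXc) hnc
    have hpm := hp m (by omega)
    have hfm := Finset.mem_sdiff.1 (hf0 (p m) hpm)
    obtain ⟨y, hy1, hy2, hy3⟩ := hU (f (p m)) hfm.1 hfm.2 (by rw [hU0]; exact Finset.notMem_empty _)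
    have hyf : ∀ i, i ≤ m → f i ≠ y := by
      intro i hi h
      apply (Finset.mem_sdiff.1 (hf0 i hi)).2
      rw [h]
      exact hy1
    refine ⟨fun i => if i = m + 1 then y else f i, ?_, ?_, ?_⟩
    · intro i hi
      show (if i = m + 1 then y else f i) ∈ X
      by_cases h1 : i = m + 1
      · rw [if_pos h1]
        exact hSX hy1
      · rw [if_neg h1]
        exact (Finset.mem_sdiff.1 (hf0 i (by omega))).1
    · intro a ha b hb hab
      simp only [Set.mem_ofPred_eq] at ha hb
      simp only at hab
      by_cases h1 : a = m + 1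
      · by_cases h2 : b = m + 1
        · rw [h1, h2]
        · rw [if_pos h1, if_neg h2] at hab
          exact absurd hab.symm (hyf b (by omega))
      · by_cases h2 : b = m + 1
        · rw [if_neg h1, if_pos h2] at hab
          exact absurd hab (hyf a (by omega))
        · rw [if_neg h1, if_neg h2] at hab
          exact hf1 (by simp only [Set.mem_ofPred_eq]; omega)
            (by simp only [Set.mem_ofPred_eq]; omega) hab
    · intro i hi
      by_cases h1 : i = m
      · subst h1
        have h2 : p i ≠ i + 1 := by omega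
        simp only [if_neg h2, if_true]
        exact ⟨hy2, hy3⟩
      · have h3 : p i ≠ m + 1 := by
          have := hp i (by omega)
          omega
        have h4 : i + 1 ≠ m + 1 := by omega
        simp only [if_neg h3, if_neg h4]
        exact hf2 i (by omega)

end

/-- Every oriented graph with `n` vertices and chromatic number larger than
`k (⌊log₂ n⌋ + 1)` contains every oriented tree, in particular every oriented path, with
`k` arcs. -/
theorem result {V : Type u} [Fintype V] {W : Type v} [Fintype W] (D : V → V → Prop)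
    (hD : Oriented D) (A : W → W → Prop) (hA : OrientedTree A) (k : ℕ)
    (hk : Fintype.card W = k + 1)
    (hchi : ((k * (Nat.log 2 (Fintype.card V) + 1) : ℕ) : ℕ∞) < (und D).chromaticNumber) :
    Contains D A := by
  classical
  obtain ⟨e, p, d, he, hp, hd, hAll⟩ := exists_code A hA k hk
  obtain ⟨f, _, hf1, hf2⟩ := embed D hD (Nat.log 2 (Fintype.card V) + 1) k p d hp k le_rfl
    (Finset.univ : Finset V) (by
      rw [Finset.card_univ]
      exact Nat.lt_pow_succ_log_self (by norm_num) _) (by
      rintro ⟨c, hc1, hc2⟩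
      have hcol : (und D).Coloring (Fin (k * (Nat.log 2 (Fintype.card V) + 1))) := by
        refine SimpleGraph.Coloring.mk (fun v => ⟨c v, hc1 v (Finset.mem_univ v)⟩) ?_
        intro a b hab heq
        have h1 : c a = c b := by simpa using heq
        rw [und_adj hD] at hab
        rcases hab with h2 | h2
        · exact hc2 a (Finset.mem_univ a) b (Finset.mem_univ b) h2 h1
        · exact hc2 b (Finset.mem_univ b) a (Finset.mem_univ a) h2 h1.symm
      have h1 := hcol.colorable
      rw [Fintype.card_fin] at h1
      exact absurd h1.chromaticNumber_le (not_le.2 hchi))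
  exact contains_of_code A k hk D e p d he hp hAll f hf1 hf2

end Pool.Agent.Results.MP_2821f8_co.OrderBound
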